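import Pool.Agent.TH977.PW.Prog
import Pool.Agent.H141R2.FS.Main1

set_option autoImplicit false

/-!
# EVERY large `n`, `4 ∤ n`: regular neighbourhoods of the represented prime quadruples

Let `H` be `{0, 2, 6, 12}`, so that `m + h`, `h ∈ H`, are the numbers `p - 2`, `p`, `p + 4`, `p + 10` for `p = m + 2`. Let `R r`
be the set of the `m` for which all prime factors of all `m + h` are larger than `m ^ (1 / r)`; it contains all prime
quadruples. Let `n` be ANY large integer which is not divisible by `4`. All `m ∈ R r` with `29 n ≤ (m + 2) ^ 2 ≤ 30 n` belong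
to representations `n = x² + y² + z² + w²`, `m + 2 = x + 2 y + 5 z`. Every short interval `(X, X + Y]`, `Y ≥ X ^ θ`, inside
this range contains at least `κ Y / log ^ 4 X` of these `m` for which all `m + h` have at most `r` prime factors. Let `A` be an
ARBITRARY set of represented elements of `R r` (for example the set of all admissible representations of `n`, that is all
the prime quadruples represented by `n`). In every such interval all but `ε Y / log ^ 4 X` of the elements of `A` are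
regular points of `A`: the elements of `A` in ALL intervals of length between `log ^ 4 X / c` and `Y` around them have the
right order, and constant density up to `δ` at all but `B (ε, δ)` dyadic scales.
-/

namespace Pool.Agent.L5helper16.Retired.MP40574aRegularNeighbourhoods

open Finset Filter
open Pool.Agent.TH977.PW (N Irregular)

/-- The shape of the quadruple `p - 2`, `p`, `p + 4`, `p + 10`. -/
def H : Finset ℕ := {0, 2, 6, 12}

/-- All prime factors of all `m + h`, `h ∈ H`, are larger than `m ^ (1 / r)`. -/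
def R (r : ℕ) : Set ℕ :=
  {m | ∀ h ∈ H, ∀ q : ℕ, q.Prime → q ∣ m + h → (m : ℝ) ^ (1 / (r : ℝ)) < (q : ℝ)}

/-- `p = m + 2` is the value of `x + 2 y + 5 z` at a representation `n = x² + y² + z² + w²`. -/
def Val (n m : ℕ) : Prop := ∃ x y z w : ℕ, n = x ^ 2 + y ^ 2 + z ^ 2 + w ^ 2 ∧ m + 2 = x + 2 * y + 5 * z

/-- no local obstruction -/
lemma adm (p : ℕ) (hp : p.Prime) : ∃ m : ℕ, ∀ h ∈ H, ¬ p ∣ m + h := by
  rcases lt_or_ge p 40 with h40 | h40
  · refine ⟨101, fun h hh hd => ?_⟩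
    unfold H at hh
    simp only [mem_insert, mem_singleton] at hh
    have := (Nat.prime_dvd_prime_iff_eq hp
      (by rcases hh with rfl | rfl | rfl | rfl <;> norm_num)).1 hd
    omega
  · refine ⟨5, fun h hh hd => ?_⟩
    unfold H at hh
    simp only [mem_insert, mem_singleton] at hh
    have := Nat.le_of_dvd (by omega) hd
    omega

lemma N_mono (A B : Set ℕ) (a b : ℕ) (h : ∀ m, a < m → m ≤ b → m ∈ A → m ∈ B) : N A a b ≤ N B a b := by
  classical
  unfold N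
  apply card_le_card
  intro m hm
  rw [mem_filter, mem_Ioc] at hm ⊢
  exact ⟨hm.1, h m hm.1.1 hm.1.2 hm.2⟩

/-- **EVERY large `n`, `4 ∤ n`: regular neighbourhoods of the represented prime quadruples.** -/
theorem result (θ : ℝ) (hθ : 0 < θ) (hθ1 : θ ≤ 1) :
    ∃ r₀ : ℕ, 2 ≤ r₀ ∧ ∀ r : ℕ, r₀ ≤ r →
      (∀ m : ℕ, (∀ h ∈ H, (m + h).Prime) → m ∈ R r) ∧
      (∃ n₀ : ℕ, ∀ n : ℕ, n₀ ≤ n → ¬ 4 ∣ n → ∀ m : ℕ, 29 * n ≤ (m + 2) ^ 2 → (m + 2) ^ 2 ≤ 30 * n → m ∈ R r →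
        Val n m) ∧
      (∃ κ : ℝ, 0 < κ ∧ ∃ n₀ : ℕ, ∀ n : ℕ, n₀ ≤ n → ¬ 4 ∣ n → ∀ X Y : ℕ, 29 * n ≤ X ^ 2 → (X + Y + 2) ^ 2 ≤ 30 * n →
        (X : ℝ) ^ θ ≤ Y → κ * Y / Real.log X ^ 4 ≤
          N {m | m ∈ R r ∧ Val n m ∧ ∀ h ∈ H, (m + h).primeFactorsList.length ≤ r} X (X + Y)) ∧
      ∀ ε : ℝ, 0 < ε → ∃ c : ℝ, 0 < c ∧ ∀ δ : ℝ, 0 < δ → ∃ B n₀ : ℕ, ∀ n : ℕ, n₀ ≤ n → ¬ 4 ∣ n →
        ∀ X Y : ℕ, 29 * n ≤ X ^ 2 → (X + Y + 2) ^ 2 ≤ 30 * n → (X : ℝ) ^ θ ≤ Y →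
        ∀ A : Set ℕ, A ⊆ {m | m ∈ R r ∧ Val n m} →
          (N (Irregular A 4 c δ B X Y) X (X + Y) : ℝ) ≤ ε * Y / Real.log X ^ 4 := by
  have h0 : 0 ∈ H := by unfold H; simp
  have hH : H = {0, 2, 6, 12} := rfl
  have hc : H.card = 4 := rfl
  obtain ⟨r0, hr0, h⟩ := Pool.Agent.TH977.PW.final_prog H ⟨0, h0⟩ 1 0 one_pos
    (fun h _ => Nat.coprime_one_right _)
    (fun p hp => adm p hp)
    (fun r => R r)
    (fun r => {m | m ∈ R r ∧ ∀ h ∈ H, (m + h).primeFactorsList.length ≤ r}) 4 hc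
    (fun r m _ hm => hm)
    (fun r _ => Eventually.of_forall (fun m _ h1 h2 => ⟨h1, h2⟩)) θ hθ hθ1
  refine ⟨r0, hr0, fun r hr => ?_⟩
  have hr1 : 0 < r := by omega
  have hval : ∀ n : ℕ, 5 ^ (2 * r) + 10 ≤ n → ¬ 4 ∣ n → ∀ m : ℕ, 29 * n ≤ (m + 2) ^ 2 → (m + 2) ^ 2 ≤ 30 * n → m ∈ R r →
      Val n m := by
    intro n hn hn4 m hm1 hm2 hmR
    have hm5 : 5 ^ r ≤ m := by
      by_contra hcon
      have e1 : m + 2 ≤ 5 ^ r + 1 := by omega
      have e2 : (m + 2) ^ 2 ≤ (5 ^ r + 1) ^ 2 := Nat.pow_le_pow_left e1 2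
      have e3 : (5 ^ r + 1) ^ 2 = 5 ^ (2 * r) + 2 * 5 ^ r + 1 := by
        rw [mul_comm 2 r, pow_mul]
        ring
      have e4 : 5 ^ r ≤ 5 ^ (2 * r) := Nat.pow_le_pow_right (by norm_num) (by omega)
      omega
    have hlarge : (5 : ℝ) ≤ (m : ℝ) ^ (1 / (r : ℝ)) := by
      have e1 : (5 : ℝ) = ((5 : ℝ) ^ r) ^ (1 / (r : ℝ)) := by
        rw [← Real.rpow_natCast, ← Real.rpow_mul (by norm_num), mul_one_div_cancel (by exact_mod_cast hr1.ne'),
          Real.rpow_one]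
      rw [e1]
      apply Real.rpow_le_rpow (by positivity) (by exact_mod_cast hm5) (by positivity)
    have hq : ∀ q : ℕ, q.Prime → q ≤ 5 → ¬ q ∣ m + 2 := by
      intro q hqp hq5 hdvd
      have e1 := hmR 2 (by rw [hH]; simp) q hqp hdvd
      have e2 : (q : ℝ) ≤ 5 := by exact_mod_cast hq5
      linarith
    have hcop : Nat.Coprime (m + 2) 30 := by
      have e2 := (Nat.Prime.coprime_iff_not_dvd Nat.prime_two).2 (hq 2 Nat.prime_two (by norm_num))
      have e3 := (Nat.Prime.coprime_iff_not_dvd Nat.prime_three).2 (hq 3 Nat.prime_three (by norm_num))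
      have e5 := (Nat.Prime.coprime_iff_not_dvd Nat.prime_five).2 (hq 5 Nat.prime_five (by norm_num))
      have : (30 : ℕ) = 2 * 3 * 5 := by norm_num
      rw [this]
      exact ((e2.symm.mul_right e3.symm).mul_right e5.symm)
    obtain ⟨x, y, z, w, g1, g2⟩ := Pool.Agent.H141R2.FS.rep hn4 hcop hm1 hm2
    exact ⟨x, y, z, w, g1, g2.symm⟩
  obtain ⟨⟨κ, hκ, hlow⟩, hreg⟩ := h r hr
  refine ⟨?_, ⟨_, hval⟩, ⟨κ, hκ, ?_⟩, ?_⟩
  · intro m hm h hh q hq hdv
    have hm2 : 2 ≤ m := by simpa using (hm 0 h0).two_le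
    rw [(Nat.prime_dvd_prime_iff_eq hq (hm h hh)).1 hdv]
    exact Pool.Agent.TH977.PW.rpow_lt_of_le r m (m + h) (hr0.trans hr) hm2 (by omega)
  · obtain ⟨X₀, hX₀⟩ := eventually_atTop.1 hlow
    refine ⟨X₀ ^ 2 + (5 ^ (2 * r) + 10), fun n hn hn4 X Y hX1 hX2 hY => ?_⟩
    have hn1 : X₀ ^ 2 + 10 ≤ n := le_trans (Nat.add_le_add_left (Nat.le_add_left _ _) _) hn
    have hn2 : 5 ^ (2 * r) + 10 ≤ n := le_trans (Nat.le_add_left _ _) hn
    clear hn
    have hXX : X₀ ≤ X := by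
      by_contra hcon
      have : X ^ 2 ≤ X₀ ^ 2 := Nat.pow_le_pow_left (by omega) 2
      clear hn2
      omega
    have hYX : Y ≤ X := by
      by_contra hcon
      have e1 : (2 * X) ^ 2 ≤ (X + Y + 2) ^ 2 := Nat.pow_le_pow_left (by omega) 2
      have e2 : (2 * X) ^ 2 = 4 * X ^ 2 := by ring
      omega
    refine (hX₀ X hXX Y hY hYX).trans ?_
    have : N {m | m ∈ R r ∧ ∀ h ∈ H, (m + h).primeFactorsList.length ≤ r} X (X + Y) ≤
        N {m | m ∈ R r ∧ Val n m ∧ ∀ h ∈ H, (m + h).primeFactorsList.length ≤ r} X (X + Y) := by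
      refine N_mono _ _ _ _ fun m g1 g2 hm => ?_
      obtain ⟨g3, g4⟩ := hm
      refine ⟨g3, hval n hn2 hn4 m ?_ ?_ g3, g4⟩
      · refine hX1.trans (Nat.pow_le_pow_left (by omega) 2)
      · exact (Nat.pow_le_pow_left (by omega) 2).trans hX2
    exact_mod_cast this
  · intro ε hε
    obtain ⟨c, hc0, h1⟩ := hreg ε hε
    refine ⟨c, hc0, fun δ hδ => ?_⟩
    obtain ⟨B, h2⟩ := h1 δ hδ
    obtain ⟨X₀, hX₀⟩ := eventually_atTop.1 h2
    refine ⟨B, X₀ ^ 2 + 10, fun n hn hn4 X Y hX1 hX2 hY A hA => ?_⟩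
    have hXX : X₀ ≤ X := by
      by_contra hcon
      have : X ^ 2 ≤ X₀ ^ 2 := Nat.pow_le_pow_left (by omega) 2
      omega
    have hYX : 2 * Y ≤ X := by
      by_contra hcon
      have e1 : (3 * X) ^ 2 ≤ (2 * (X + Y + 2)) ^ 2 := Nat.pow_le_pow_left (by omega) 2
      have e2 : (3 * X) ^ 2 = 9 * X ^ 2 := by ring
      have e3 : (2 * (X + Y + 2)) ^ 2 = 4 * (X + Y + 2) ^ 2 := by ring
      omega
    exact hX₀ X hXX Y hY hYX A (fun m hm => (hA hm).1)

end Pool.Agent.L5helper16.Retired.MP40574aRegularNeighbourhoods
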