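import Pool.Agent.L5helper16.PC.A

set_option autoImplicit false

/-!
# Record prime gaps at the points of curves given by polynomials modulo `p`, on cosets of arbitrary subgroups and in
boxes of the size of Weil's bound

`f(x) = log x (log₂ x)² log₄ x / (log₃ x)²` is the record size of the prime-free intervals (library). The engine is the
library theorem `Pool.Agent.N725.JC.resid`, which no starting hand-in states.
-/

namespace Pool.Agent.Results.MP_69be96_nt.PolynomialCurves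

open Finset Polynomial Filter

/-- The record scale `f(x) = log x (log₂ x)² log₄ x / (log₃ x)²` (iterated natural logarithms). -/
noncomputable def f (x : ℝ) : ℝ :=
  Real.log x * (Real.log (Real.log x)) ^ 2 * Real.log (Real.log (Real.log (Real.log x))) /
    (Real.log (Real.log (Real.log x))) ^ 2

/-- Every integer within `κ f(p)` of `n` has a prime factor at most `p ^ δ`. -/
def Centre (κ δ : ℝ) (p : ℕ) (n : ℤ) : Prop :=
  ∀ t : ℤ, |(t : ℝ) - n| ≤ κ * f p → ∃ l : ℕ, l.Prime ∧ (l : ℝ) ≤ (p : ℝ) ^ δ ∧ (l : ℤ) ∣ t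

/-- The vector `v` of residues modulo `p` is represented by an integer vector `z` in the box `∏ (A i, A i + H i]` such
that all the monomials `∏ (z i) ^ (e i)` with exponents `e i ≤ E` without common divisor are centres. -/
def AllCentres (κ δ : ℝ) (E p : ℕ) {k : ℕ} (A : Fin k → ℤ) (H : Fin k → ℕ) (v : Fin k → ZMod p) : Prop :=
  ∃ z : Fin k → ℤ, (∀ i, A i < z i ∧ z i ≤ A i + H i ∧ ((z i : ℤ) : ZMod p) = v i) ∧
    ∀ e : Fin k → ℕ, (∀ i, e i ≤ E) → Finset.univ.gcd e = 1 → Centre κ δ p (∏ i, z i ^ e i)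

open Classical in
/-- The coset of the residues `a y ^ m`, `y ≠ 0`, modulo `p`. If `m` divides `p - 1`, it is a coset of the subgroup with
`(p - 1) / m` elements, and all the cosets of all the subgroups of the multiplicative group are of this form. -/
noncomputable def coset {p : ℕ} [Fact p.Prime] (a : ZMod p) (m : ℕ) : Finset (ZMod p) :=
  (univ : Finset (ZMod p)ˣ).image (fun y : (ZMod p)ˣ => a * (y : ZMod p) ^ m)

open Classical in
/-- the elements of `S` at which the values of `F` are represented by centres in the box -/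
noncomputable def good (κ δ : ℝ) (E p : ℕ) {k : ℕ} (A : Fin k → ℤ) (H : Fin k → ℕ) {α : Type} (S : Finset α)
    (F : Fin k → α → ZMod p) : Finset α :=
  S.filter (fun x => AllCentres κ δ E p A H (fun i => F i x))

lemma main (k E : ℕ) (δ : ℝ) (hδ : 0 < δ) (hδ1 : δ ≤ 1) (K : ℝ) (hK : 0 ≤ K) :
    ∃ κ : ℝ, 0 < κ ∧ ∃ p₀ : ℕ, ∀ (p : ℕ) [Fact p.Prime], p₀ ≤ p →
      ∀ (α : Type) (S : Finset α) (F : Fin k → α → ZMod p), S.card ≤ p →
      (∀ h : Fin k → ZMod p, h ≠ 0 → ‖∑ x ∈ S, (ZMod.stdAddChar (∑ i, h i * F i x) : ℂ)‖ ≤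
        K * ((p : ℝ) ^ (1 / 2 : ℝ) * (1 + Real.log p))) →
      ∀ (A : Fin k → ℤ) (H : Fin k → ℕ), (∀ i, H i ≤ p) →
      (p : ℝ) ^ (1 / 2 + δ) ≤ S.card * ∏ i, ((H i : ℝ) / p) →
      (p : ℝ) ^ (-δ) * (S.card * ∏ i, ((H i : ℝ) / p)) ≤ (good κ δ E p A H S F).card := by
  classical
  obtain ⟨c, hc, h⟩ := Pool.Agent.N725.JC.resid k E δ hδ hδ1 K hK
  obtain ⟨p₀, hp₀⟩ := eventually_atTop.1 h
  refine ⟨c, hc, p₀, ?_⟩
  intro p hpF hpp α S F hS hE A H hH hV
  have hp : p.Prime := hpF.out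
  have hp0 : (0 : ℝ) < p := by exact_mod_cast hp.pos
  have e1 : (S.card : ℝ) * ∏ i, ((H i : ℝ) / p) = (∏ i, (H i : ℝ)) * S.card / (p : ℝ) ^ k := by
    rw [prod_div_distrib, prod_const, card_univ, Fintype.card_fin]
    ring
  rw [e1] at hV ⊢
  have h1 := hp₀ p hpp α S F A H hS (fun h hh => (hE h hh).trans (le_of_eq (by ring))) hH hV
  rw [mul_comm]
  refine h1.trans ?_
  rw [Nat.cast_le]
  apply card_le_card
  intro x hx
  unfold good
  rw [mem_filter] at hx ⊢
  refine ⟨hx.1, fun i => Pool.Agent.N725.JC.rep (A i) (H i) (F i x), hx.2.1, ?_⟩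
  intro e he hg t ht
  refine hx.2.2 e he hg t ?_
  push_cast at ht
  exact ht

/-- Let `k, D, E` and `0 < δ ≤ 1` be given. There are `κ > 0` and `p₀` such that the following holds for all primes
`p ≥ p₀`.

(1) Let `m` be any divisor of `p - 1`, `a ≠ 0`, and let `f_1, ..., f_k` be any polynomials modulo `p` of degree at most
`D` none of whose nontrivial linear combinations is constant. Let `∏ (A i, A i + H i]`, `H i ≤ p`, be any box with
`((p - 1) / m) ∏ (H i / p) ≥ p ^ (1 / 2 + δ)`. Then for at least `p ^ (-δ) ((p - 1) / m) ∏ (H i / p)` elements `x` of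
the coset `{a y ^ m}` the residues `f_i(x)` are represented by integers `z_i` in the box all of whose monomials
`∏ (z i) ^ (e i)`, `e i ≤ E` without common divisor, are centres.

(2) The same for all finite families `F_1, ..., F_k : S → Z/p`, `|S| ≤ p`, for which the exponential sums at all nonzero
frequencies are at most `D p ^ (1/2) (1 + log p)`, and all boxes with `|S| ∏ (H i / p) ≥ p ^ (1 / 2 + δ)`. -/
theorem result (k D E : ℕ) (δ : ℝ) (hδ : 0 < δ) (hδ1 : δ ≤ 1) :
    ∃ κ : ℝ, 0 < κ ∧ ∃ p₀ : ℕ, ∀ (p : ℕ) [Fact p.Prime], p₀ ≤ p →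
      (∀ (m : ℕ) (a : ZMod p), m ∣ p - 1 → a ≠ 0 → ∀ f : Fin k → (ZMod p)[X], (∀ i, (f i).natDegree ≤ D) →
        (∀ h : Fin k → ZMod p, h ≠ 0 → 1 ≤ (∑ i, C (h i) * f i).natDegree) →
        (coset a m).card = (p - 1) / m ∧
        ∀ (A : Fin k → ℤ) (H : Fin k → ℕ), (∀ i, H i ≤ p) →
          (p : ℝ) ^ (1 / 2 + δ) ≤ (coset a m).card * ∏ i, ((H i : ℝ) / p) →
          (p : ℝ) ^ (-δ) * ((coset a m).card * ∏ i, ((H i : ℝ) / p)) ≤
            (good κ δ E p A H (coset a m) (fun i x => (f i).eval x)).card) ∧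
      (∀ (α : Type) (S : Finset α) (F : Fin k → α → ZMod p), S.card ≤ p →
        (∀ h : Fin k → ZMod p, h ≠ 0 → ‖∑ x ∈ S, (ZMod.stdAddChar (∑ i, h i * F i x) : ℂ)‖ ≤
          D * ((p : ℝ) ^ (1 / 2 : ℝ) * (1 + Real.log p))) →
        ∀ (A : Fin k → ℤ) (H : Fin k → ℕ), (∀ i, H i ≤ p) →
          (p : ℝ) ^ (1 / 2 + δ) ≤ S.card * ∏ i, ((H i : ℝ) / p) →
          (p : ℝ) ^ (-δ) * (S.card * ∏ i, ((H i : ℝ) / p)) ≤ (good κ δ E p A H S F).card) := by
  classical
  obtain ⟨κ, hκ, p₁, h⟩ := main k E δ hδ hδ1 (D + 1) (by positivity)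
  refine ⟨κ, hκ, max p₁ (D + 1), ?_⟩
  intro p hpF hpp
  have hp : p.Prime := hpF.out
  have hpp1 : p₁ ≤ p := (le_max_left _ _).trans hpp
  have hpp2 : D < p := lt_of_lt_of_le (Nat.lt_succ_self D) ((le_max_right _ _).trans hpp)
  have hp0 : (0 : ℝ) < p := by exact_mod_cast hp.pos
  have hp1 : (1 : ℝ) ≤ p := by exact_mod_cast hp.one_lt.le
  have hlog : 0 ≤ Real.log p := Real.log_nonneg hp1
  have hs : 0 ≤ (p : ℝ) ^ (1 / 2 : ℝ) := by positivity
  refine ⟨?_, ?_⟩
  · intro m a hm ha f hf hlin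
    have hcos : coset a m = Pool.Agent.L5helper16.PC.cst a m := rfl
    have hcard := Pool.Agent.L5helper16.PC.card_cst a ha m hm
    have hp11 : 0 < p - 1 := by have := hp.two_le; omega
    have hm0 : 0 < m := Nat.pos_of_dvd_of_pos hm hp11
    refine ⟨?_, ?_⟩
    · rw [hcos, ← hcard, Nat.mul_div_cancel_left _ hm0]
    · intro A H hH hV
      refine h p hpp1 (ZMod p) (coset a m) (fun i x => (f i).eval x) ?_ ?_ A H hH hV
      · rw [hcos]
        have := Finset.card_le_univ (Pool.Agent.L5helper16.PC.cst a m)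
        rwa [ZMod.card] at this
      · intro w hw
        rw [hcos]
        refine (Pool.Agent.L5helper16.PC.poly_coset k D f hf hpp2 hlin a ha m hm w hw).trans ?_
        rw [Real.sqrt_eq_rpow]
        have h3 : (p : ℝ) ^ (1 / 2 : ℝ) ≤ (p : ℝ) ^ (1 / 2 : ℝ) * (1 + Real.log p) :=
          le_mul_of_one_le_right hs (by linarith)
        exact mul_le_mul_of_nonneg_left h3 (by positivity)
  · intro α S F hS hE A H hH hV
    refine h p hpp1 α S F hS (fun w hw => (hE w hw).trans ?_) A H hH hV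
    have h3 : 0 ≤ (p : ℝ) ^ (1 / 2 : ℝ) * (1 + Real.log p) := mul_nonneg hs (by linarith)
    nlinarith

end Pool.Agent.Results.MP_69be96_nt.PolynomialCurves
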