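import Pool.Agent.Y781.JR.Dens
import Pool.Agent.Y882.JR.Lim
import Pool.Agent.W366.DC.SFX
import Pool.Agent.Y445.JRB.Buch

set_option autoImplicit false

/-!
# The linear sieve for `m² + 1` in almost all very short intervals, with the constant `C` of the problem

Let `C` be the constant of the problem, `1 / 2 ≤ t < 1`, `0 < h ≤ 1`, `s ≥ 1`, and let `F`, `f` be the functions of
Jurkat and Richert. For all `N ≤ X` with at most `X ^ (2 t - h + ε)` exceptions the number of the
`m` in `(N, N + X ^ h]` for which `m² + 1` has no prime factor below `X ^ (t / s)` lies between `f(s) - δ` and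
`F(s) + δ` times the expected number `C exp (-γ) (s / t) X ^ h / log X`. So the level of distribution
`X ^ t` is available in intervals of length `X ^ h` for every `h > 2 t - 1`, at almost all positions; for an
individual interval of the length `X ^ h` only the level `X ^ h` is known.
-/

namespace Pool.Agent.Results.MP_f1a94e_nt.SieveAlmostAllShortIntervals

open Finset Filter Topology
open Pool.Agent.W23.DC
open Pool.Agent.Y882.JR
open Pool.Agent.Y781.JR

/-- The partial products `∏_{2 < p ≤ z} (1 - (-1) ^ ((p - 1) / 2) / (p - 1))` of the constant `C`. -/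
noncomputable def partialC (z : ℕ) : ℝ :=
  ∏ p ∈ (Icc 3 z).filter Nat.Prime, (1 - (-1 : ℝ) ^ ((p - 1) / 2) / ((p : ℝ) - 1))

/-- `F` and `f` are the functions of Jurkat and Richert of the linear sieve: continuous on `[1, ∞)`,
`F(s) = 2 exp γ / s` for `1 ≤ s ≤ 3`, `f(s) = 0` for `1 ≤ s ≤ 2`, and `(s F(s))' = f(s - 1)` for `s ≥ 3`,
`(s f(s))' = F(s - 1)` for `s ≥ 2`, in integrated form. -/
structure JurkatRichert (F f : ℝ → ℝ) : Prop where
  contF : ContinuousOn F (Set.Ici 1)
  contf : ContinuousOn f (Set.Ici 1)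
  F_start : ∀ s, 1 ≤ s → s ≤ 3 → F s = 2 * Real.exp Real.eulerMascheroniConstant / s
  f_start : ∀ s, 1 ≤ s → s ≤ 2 → f s = 0
  F_eq : ∀ s, 3 ≤ s → s * F s = 2 * Real.exp Real.eulerMascheroniConstant + ∫ x in (3 : ℝ)..s, f (x - 1)
  f_eq : ∀ s, 2 ≤ s → s * f s = ∫ x in (2 : ℝ)..s, F (x - 1)

/-- The number of the `m` in `(N, N + H]` such that `m ^ 2 + 1` has no prime factor below `z`. -/
noncomputable def sifted (z : ℝ) (N H : ℕ) : ℕ :=
  {m : ℕ | N < m ∧ m ≤ N + H ∧ ∀ p : ℕ, p.Prime → p ∣ m ^ 2 + 1 → z ≤ p}.ncard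

/-- The expected number `C exp (-γ) (s / t) X ^ h / log X` of the `m` in an interval of length `X ^ h` near `X`
for which `m ^ 2 + 1` has no prime factor below `X ^ (t / s)`. -/
noncomputable def expected (C s t h : ℝ) (X : ℕ) : ℝ :=
  C * Real.exp (-Real.eulerMascheroniConstant) * (s / t) * ((X : ℝ) ^ h / Real.log X)

theorem sifted_eq (z : ℝ) (N H : ℕ) : sifted z N H = rough 1 z N H := by
  classical
  unfold sifted rough
  rw [← Set.ncard_coe_finset]
  congr 1
  ext m
  simp only [Set.mem_setOf_eq, coe_filter, mem_Ioc]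
  constructor
  · rintro ⟨h1, h2, h3⟩
    exact ⟨⟨h1, h2⟩, fun p hp hd => h3 p hp (by exact_mod_cast hd)⟩
  · rintro ⟨⟨h1, h2⟩, h3⟩
    exact ⟨h1, h2, fun p hp hd => h3 p hp (by exact_mod_cast hd)⟩

theorem partialC_eq (x : ℕ) : partialC x = RR 1 (x + 1) := by
  unfold partialC RR
  have hs : (Icc 3 x).filter Nat.Prime = (range (x + 1)).filter (fun p : ℕ => p.Prime ∧ p ≠ 2) := by
    ext p
    rw [mem_filter, mem_filter, mem_Icc, mem_range]
    constructor
    · rintro ⟨⟨h1, h2⟩, h3⟩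
      exact ⟨by omega, h3, by omega⟩
    · rintro ⟨h1, h2, h3⟩
      have := h2.two_le
      exact ⟨⟨by omega, by omega⟩, h2⟩
  rw [hs]
  refine prod_congr rfl (fun p hp => ?_)
  have h := (mem_filter.1 hp).2
  have hodd : Odd p := h.1.odd_of_ne_two h.2
  have hmod : p % 2 = 1 := Nat.odd_iff.1 hodd
  rw [jacobiSym.at_neg_one hodd, ZMod.χ₄_eq_neg_one_pow hmod]
  have e : (p - 1) / 2 = p / 2 := by omega
  rw [e]
  push_cast
  rfl

open Classical in
/-- **The linear sieve for `m² + 1` at almost all positions, in intervals of length `X ^ h`.** There are the constant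
`C > 0` of the problem and the functions `F`, `f` of Jurkat and Richert, which tend to `1` at infinity, with
`f(s) = 2 exp γ log (s - 1) / s` for `2 ≤ s ≤ 4`, such that for all `s ≥ 1`, `1 / 2 ≤ t < 1`, `0 < h ≤ 1`,
`δ, ε > 0` and all large `X` the following holds for all `1 ≤ N ≤ X` with at most `X ^ (2 t - h + ε)`
exceptions: the number of the `m` in `(N, N + X ^ h]` for which `m ^ 2 + 1` has no prime factor below `X ^ (t / s)`
is at least `(f(s) - δ) E` and at most `(F(s) + δ) E`, where `E = C exp (-γ) (s / t) X ^ h / log X`. -/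
theorem result : ∃ (C : ℝ) (F f : ℝ → ℝ), 0 < C ∧ Tendsto partialC atTop (𝓝 C) ∧ JurkatRichert F f ∧
    Tendsto F atTop (𝓝 1) ∧ Tendsto f atTop (𝓝 1) ∧
    (∀ s, 2 ≤ s → s ≤ 4 → f s = 2 * Real.exp Real.eulerMascheroniConstant * Real.log (s - 1) / s) ∧
    ∀ s t h δ ε : ℝ, 1 ≤ s → 1 / 2 ≤ t → t < 1 → 0 < h → h ≤ 1 → 0 < δ → 0 < ε →
      ∀ᶠ X : ℕ in atTop, (((Icc 1 X).filter (fun N : ℕ =>
        ¬ ((f s - δ) * expected C s t h X ≤ sifted ((X : ℝ) ^ (t / s)) N ⌊(X : ℝ) ^ h⌋₊ ∧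
          (sifted ((X : ℝ) ^ (t / s)) N ⌊(X : ℝ) ^ h⌋₊ : ℝ) ≤ (F s + δ) * expected C s t h X))).card : ℝ) ≤
        (X : ℝ) ^ (2 * t - h + ε) := by
  obtain ⟨A0, F, f, hSF⟩ := Pool.Agent.W366.DC.SFX
  have hA : A0 = 2 * Real.exp Real.eulerMascheroniConstant :=
    A0_eq Pool.Agent.Y445.JRB.t hSF
  have hns : ¬ IsSquare (-(1 : ℤ)) := by
    rintro ⟨r, hr⟩
    nlinarith [mul_self_nonneg r]
  obtain ⟨C, hC, hR⟩ := RR_conv 1 hns
  obtain ⟨C', hC', hN', hz⟩ := Pool.Agent.Y781.JR.t 1 hns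
  have hCC : C' = C := by
    refine tendsto_nhds_unique hN' ?_
    refine hR.congr (fun N => ?_)
    rw [dens_eq, Nat.ceil_natCast]
    change RR 1 N = GG N * RR 1 N / GG N
    rw [mul_div_cancel_left₀ _ (GG_pos N).ne']
  rw [hCC] at hz
  set γ := Real.eulerMascheroniConstant with hγ
  refine ⟨C, F, f, hC, ?_, ⟨hSF.cF, hSF.cf, ?_, hSF.f2, ?_, hSF.ef⟩, F_lim hSF, f_lim hSF, ?_, ?_⟩
  · have := hR.comp (tendsto_add_atTop_nat 1)
    refine this.congr (fun x => ?_)
    exact (partialC_eq x).symm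
  · intro s h1 h2
    rw [hSF.F3 s h1 h2, hA]
  · intro s h1
    rw [hSF.eF s h1, hA]
  · intro s h1 h2
    rw [hSF.f4 s h1 h2, hA]
  intro s t h δ ε hs ht1 ht hh hh1 hδ hε
  have hs0 : 0 < s := by linarith
  have ht0 : 0 < t := by linarith
  have hXr : Tendsto (fun X : ℕ => (X : ℝ)) atTop atTop := tendsto_natCast_atTop_atTop
  set κ : ℝ := C * Real.exp (-γ) * (s / t) with hκ
  have hκ0 : 0 < κ := by positivity
  -- the density
  have hz2 : Tendsto (fun X : ℕ => dens 1 ((X : ℝ) ^ (t / s)) * Real.log X) atTop (𝓝 κ) := by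
    have h1 := (hz.comp ((tendsto_rpow_atTop (show 0 < t / s by positivity)).comp hXr)).div_const (t / s)
    have e : C * Real.exp (-γ) / (t / s) = κ := by
      rw [hκ]
      field_simp
    rw [e] at h1
    refine h1.congr' ?_
    filter_upwards [eventually_gt_atTop 0] with X hX
    have hX0 : (0 : ℝ) < X := by exact_mod_cast hX
    simp only [Function.comp]
    rw [Real.log_rpow hX0]
    field_simp
  have H := finJR A0 F f hSF 1 hns t s h (δ / 2) ε ht1 ht hs hh hh1 (by linarith) hε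
  have ev1 : ∀ᶠ X : ℕ in atTop, (f s - δ) * κ < (f s - δ / 2) * (dens 1 ((X : ℝ) ^ (t / s)) * Real.log X) := by
    have h1 := hz2.const_mul (f s - δ / 2)
    apply h1.eventually (lt_mem_nhds _)
    nlinarith
  have ev2 : ∀ᶠ X : ℕ in atTop, (F s + δ / 2) * (dens 1 ((X : ℝ) ^ (t / s)) * Real.log X) < (F s + δ) * κ := by
    have h1 := hz2.const_mul (F s + δ / 2)
    apply h1.eventually (gt_mem_nhds _)
    nlinarith
  filter_upwards [H, ev1, ev2, eventually_ge_atTop 3] with X hX e1 e2 hX3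
  have hX3r : (3 : ℝ) ≤ X := by exact_mod_cast hX3
  have hX0 : (0 : ℝ) < X := by linarith
  have hl : 0 < Real.log X := Real.log_pos (by linarith)
  refine le_trans ?_ hX
  norm_cast
  apply card_le_card
  intro N hN
  rw [mem_filter] at hN ⊢
  refine ⟨hN.1, fun hcon => hN.2 ?_⟩
  rw [sifted_eq]
  have hE : expected C s t h X = κ * ((X : ℝ) ^ h / Real.log X) := rfl
  have h8 : 0 ≤ (X : ℝ) ^ h / Real.log X := by positivity
  have h7 : ∀ u : ℝ, u * ((X : ℝ) ^ h * dens 1 ((X : ℝ) ^ (t / s))) =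
      (u * (dens 1 ((X : ℝ) ^ (t / s)) * Real.log X)) * ((X : ℝ) ^ h / Real.log X) := by
    intro u
    field_simp
  rw [hE]
  constructor
  · refine le_trans ?_ hcon.1
    rw [h7, ← mul_assoc (f s - δ)]
    exact mul_le_mul_of_nonneg_right e1.le h8
  · refine le_trans hcon.2 ?_
    rw [h7, ← mul_assoc (F s + δ)]
    exact mul_le_mul_of_nonneg_right e2.le h8

end Pool.Agent.Results.MP_f1a94e_nt.SieveAlmostAllShortIntervals
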